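import Pool.Agent.Lib_MP_f31343_q.HMove

/-!
# The dominating representation is cocompact
-/

set_option autoImplicit false

open UpperHalfPlane MatrixGroups

namespace F31343.Quot

theorem log4_le : Real.log 4 ≤ 7 / 4 := by
  have h : Real.log 4 = 2 * Real.log 2 := by
    rw [show (4 : ℝ) = 2 ^ 2 by norm_num, Real.log_pow]
    norm_num
  have := Real.log_two_lt_d9
  rw [h]
  linarith

theorem dist_orbit {G : Type*} [Group G] (r : G →* SL(2, ℝ)) (g h : G) :
    dist (r g • I) (r h • I) = dist I (r (g⁻¹ * h) • I) := by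
  rw [← dist_smul (r g) I (r (g⁻¹ * h) • I), smul_smul, ← map_mul, mul_inv_cancel_left]

/-- If `μ_a - μ_b` is proper and the action of `G` by `(ra, rb)` is cocompact, then the orbit of `i`
under `ra` is cobounded. -/
theorem cobounded_of_dominates {G : Type*} [Group G] (ra rb : G →* SL(2, ℝ))
    (hfin : ∀ R : ℝ, {g : G | dist I (ra g • I) - dist I (rb g • I) ≤ R}.Finite)
    (c : ℝ) (hC : ∀ u : SL(2, ℝ), ∃ g : G, dist (u • rb g • I) (ra g • I) ≤ c) :
    ∃ R0 : ℝ, ∀ y : ℍ, ∃ g : G, dist y (ra g • I) ≤ R0 := by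
  set T : ℝ := 2 * c + 4 + Real.log 30 with hT
  obtain ⟨B, hB⟩ : ∃ B : ℝ, ∀ g : G, dist I (ra g • I) - dist I (rb g • I) ≤ T → dist I (rb g • I) ≤ B := by
    obtain ⟨B, hB⟩ := ((hfin T).image (fun g => dist I (rb g • I))).bddAbove
    exact ⟨B, fun g hg => hB ⟨g, hg, rfl⟩⟩
  refine ⟨max (c + 3) ((B + T) / 2), ?_⟩
  intro y
  by_contra hcon
  push Not at hcon
  set A : G → ℝ := fun g => dist y (ra g • I) with hA
  set W : G → ℍ := fun g => rb g • I with hW
  have hA1 : ∀ g, c + 3 < A g := fun g => lt_of_le_of_lt (le_max_left _ _) (hcon g)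
  have hA2 : ∀ g, (B + T) / 2 < A g := fun g => lt_of_le_of_lt (le_max_right _ _) (hcon g)
  set S : Set ℝ := {s | ∃ p : ℍ, ∀ g, dist p (W g) - A g ≤ s} with hS
  have hSne : S.Nonempty := by
    -- at the point `i`, all but finitely many terms are negative
    have hf := hfin (dist y I)
    obtain ⟨M, hM⟩ := (hf.image (fun g => dist I (W g) - A g)).bddAbove
    refine ⟨max M 0, I, fun g => ?_⟩
    by_cases hg : dist I (ra g • I) - dist I (rb g • I) ≤ dist y I
    · exact le_trans (hM ⟨g, hg, rfl⟩) (le_max_left _ _)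
    · refine le_trans ?_ (le_max_right _ _)
      push Not at hg
      have h1 := dist_triangle I y (ra g • I)
      rw [dist_comm I y] at h1
      show dist I (rb g • I) - dist y (ra g • I) ≤ 0
      linarith
  have hSb : ∀ s ∈ S, -c ≤ s := by
    rintro s ⟨p, hp⟩
    obtain ⟨u, hu⟩ := MulAction.exists_smul_eq SL(2, ℝ) p y
    obtain ⟨g, hg⟩ := hC u
    have h1 := hp g
    have h2 : dist p (W g) = dist y (u • rb g • I) := by
      rw [← dist_smul u, hu]
    have h3 := dist_triangle y (u • rb g • I) (ra g • I)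
    have h4 : A g = dist y (ra g • I) := rfl
    linarith
  have hbdd : BddBelow S := ⟨-c, fun s hs => hSb s hs⟩
  obtain ⟨s, hs, hslt⟩ := exists_lt_of_csInf_lt hSne (show sInf S < sInf S + 1 / 4 by linarith)
  have hnot : s - 1 / 4 ∉ S := by
    intro h
    have := csInf_le hbdd h
    linarith
  apply hnot
  have hsc := hSb s hs
  obtain ⟨p, hp⟩ := hs
  by_cases hact : ∃ g0, s - 2 < dist p (W g0) - A g0
  · obtain ⟨g0, hg0⟩ := hact
    obtain ⟨p', hpp, hmove⟩ := hm_move p (W g0)
    refine ⟨p', fun g => ?_⟩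
    have hl4 := log4_le
    by_cases hg : s - 2 < dist p (W g) - A g
    · have h1 : 1 ≤ dist p (W g) := by
        have := hA1 g
        linarith
      rcases hmove (W g) with h2 | h2
      · have := h2 h1
        have := hp g
        linarith
      · exfalso
        have h3 : dist (W g) (W g0) = dist I (rb (g⁻¹ * g0) • I) := dist_orbit rb g g0
        have h4 : dist (ra g • I) (ra g0 • I) = dist I (ra (g⁻¹ * g0) • I) := dist_orbit ra g g0
        have h5 : dist (ra g • I) (ra g0 • I) ≤ A g + A g0 := by
          have := dist_triangle (ra g • I) y (ra g0 • I)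
          rw [dist_comm (ra g • I) y] at this
          exact this
        have h6 : dist I (rb (g⁻¹ * g0) • I) ≤ B := by
          apply hB
          rw [← h3, ← h4]
          linarith
        have h7 := hA2 g
        have h8 := hA2 g0
        rw [← h3] at h6
        linarith
    · push Not at hg
      have h1 := dist_triangle p' p (W g)
      rw [dist_comm p' p] at h1
      linarith
  · push Not at hact
    exact ⟨p, fun g => by have := hact g; linarith⟩

end F31343.Quot
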