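import Pool.Agent.Lib_MP_f31343_q.Cocompact

/-!
# Growth: a cobounded representation cannot dominate a proper one
-/

set_option autoImplicit false

open UpperHalfPlane MatrixGroups

namespace F31343.Quot

variable {G : Type*} [Group G]

/-- number of the elements with displacement at most `R` -/
noncomputable def cnt (r : G →* SL(2, ℝ)) (R : ℝ) : ℕ := {g : G | dist I (r g • I) ≤ R}.ncard

theorem sep_le (ra : G →* SL(2, ℝ)) (hfa : ∀ R : ℝ, {g : G | dist I (ra g • I) ≤ R}.Finite) (R0 : ℝ)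
    (hco : ∀ y : ℍ, ∃ g : G, dist y (ra g • I) ≤ R0) {κ : Type*} (T : Finset κ) (x : κ → ℍ) (R : ℝ)
    (hx : ∀ t ∈ T, dist I (x t) ≤ R) (hsep : ∀ s ∈ T, ∀ t ∈ T, s ≠ t → 2 * R0 < dist (x s) (x t)) :
    T.card ≤ cnt ra (R + R0) := by
  classical
  choose f hf using fun t => hco (x t)
  have hinj : Set.InjOn f (T : Set κ) := by
    intro s hs t ht hst
    by_contra hne
    have h1 := hsep s hs t ht hne
    have h2 := dist_triangle (x s) (ra (f s) • I) (x t)
    have h3 := hf s
    have h4 := hf t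
    rw [← hst, dist_comm] at h4
    linarith
  rw [← Finset.card_image_of_injOn hinj, ← Set.ncard_coe_finset]
  apply Set.ncard_le_ncard _ (hfa _)
  intro g hg
  rw [Finset.mem_coe, Finset.mem_image] at hg
  obtain ⟨t, ht, rfl⟩ := hg
  have h1 := dist_triangle I (x t) (ra (f t) • I)
  have h2 := hx t ht
  have h3 := hf t
  show dist I (ra (f t) • I) ≤ R + R0
  linarith

theorem exists_sep (rb : G →* SL(2, ℝ)) (hfb : ∀ R : ℝ, {g : G | dist I (rb g • I) ≤ R}.Finite) (R0 : ℝ)
    (hR0 : 0 ≤ R0) (R : ℝ) : ∃ T : Finset G, (∀ t ∈ T, dist I (rb t • I) ≤ R) ∧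
      (∀ s ∈ T, ∀ t ∈ T, s ≠ t → 2 * R0 < dist (rb s • I) (rb t • I)) ∧
      cnt rb R ≤ cnt rb (2 * R0) * T.card := by
  classical
  set F := (hfb R).toFinset with hF
  set F0 := (hfb (2 * R0)).toFinset with hF0
  set P := F.powerset.filter (fun T : Finset G => ∀ s ∈ T, ∀ t ∈ T, s ≠ t → 2 * R0 < dist (rb s • I) (rb t • I))
    with hP
  have hPne : P.Nonempty := ⟨∅, by simp [hP]⟩
  obtain ⟨T, hT, hmax⟩ := Finset.exists_max_image P Finset.card hPne
  obtain ⟨hT1, hT2⟩ := Finset.mem_filter.1 hT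
  rw [Finset.mem_powerset] at hT1
  refine ⟨T, fun t ht => ?_, hT2, ?_⟩
  · have := hT1 ht
    rw [hF, Set.Finite.mem_toFinset] at this
    exact this
  · have hcl : ∀ g ∈ F, ∃ t ∈ T, dist (rb t • I) (rb g • I) ≤ 2 * R0 := by
      intro g hg
      by_contra hcon
      push Not at hcon
      have hgT : g ∉ T := by
        intro h
        have := hcon g h
        rw [dist_self] at this
        linarith
      have h1 : insert g T ∈ P := by
        rw [hP, Finset.mem_filter, Finset.mem_powerset]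
        refine ⟨Finset.insert_subset hg hT1, ?_⟩
        intro s hs t ht hst
        rcases Finset.mem_insert.1 hs with rfl | hs'
        · rcases Finset.mem_insert.1 ht with rfl | ht'
          · exact absurd rfl hst
          · rw [dist_comm]
            exact hcon t ht'
        · rcases Finset.mem_insert.1 ht with rfl | ht'
          · exact hcon s hs'
          · exact hT2 s hs' t ht' hst
      have h2 := hmax _ h1
      rw [Finset.card_insert_of_notMem hgT] at h2
      omega
    have hsub : F ⊆ T.biUnion (fun t => F0.image (fun h => t * h)) := by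
      intro g hg
      obtain ⟨t, ht, htg⟩ := hcl g hg
      rw [Finset.mem_biUnion]
      refine ⟨t, ht, Finset.mem_image.2 ⟨t⁻¹ * g, ?_, mul_inv_cancel_left t g⟩⟩
      rw [hF0, Set.Finite.mem_toFinset]
      show dist I (rb (t⁻¹ * g) • I) ≤ 2 * R0
      rw [← dist_orbit]
      exact htg
    have h1 := (Finset.card_le_card hsub).trans Finset.card_biUnion_le
    have h2 : ∑ t ∈ T, (F0.image (fun h => t * h)).card ≤ ∑ t ∈ T, F0.card :=
      Finset.sum_le_sum fun t _ => Finset.card_image_le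
    rw [Finset.sum_const, smul_eq_mul] at h2
    have h3 : cnt rb R = F.card := Set.ncard_eq_toFinset_card _ (hfb R)
    have h4 : cnt rb (2 * R0) = F0.card := Set.ncard_eq_toFinset_card _ (hfb (2 * R0))
    rw [h3, h4, mul_comm]
    exact h1.trans h2

/-- the point `x + i` -/
noncomputable def hpt (x : ℝ) : ℍ := ⟨⟨x, 1⟩, one_pos⟩

theorem cosh_hpt (x y : ℝ) : Real.cosh (dist (hpt x) (hpt y)) = 1 + (x - y) ^ 2 / 2 := by
  rw [cosh_dist']
  show ((x - y) ^ 2 + 1 ^ 2 + 1 ^ 2) / (2 * 1 * 1) = _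
  ring

theorem hpt_zero : hpt 0 = I := rfl

theorem growth_false (ra rb : G →* SL(2, ℝ))
    (hfin : ∀ R : ℝ, {g : G | dist I (ra g • I) - dist I (rb g • I) ≤ R}.Finite)
    (hfb : ∀ R : ℝ, {g : G | dist I (rb g • I) ≤ R}.Finite)
    (R1 : ℝ) (hco1 : ∀ y : ℍ, ∃ g : G, dist y (ra g • I) ≤ R1) : False := by
  classical
  set R0 : ℝ := max R1 0 with hR0
  have hR00 : 0 ≤ R0 := le_max_right _ _
  have hco : ∀ y : ℍ, ∃ g : G, dist y (ra g • I) ≤ R0 := fun y =>
    (hco1 y).imp fun g hg => hg.trans (le_max_left _ _)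
  have hfa : ∀ R : ℝ, {g : G | dist I (ra g • I) ≤ R}.Finite := by
    intro R
    apply ((hfb R).union (hfin 0)).subset
    intro g hg
    by_cases h : dist I (rb g • I) ≤ R
    · exact Or.inl h
    · right
      have h1 : dist I (ra g • I) ≤ R := hg
      push Not at h
      show dist I (ra g • I) - dist I (rb g • I) ≤ 0
      linarith
  set m : ℕ := max 2 (cnt rb (2 * R0)) with hm
  have hm2 : 2 ≤ m := le_max_left _ _
  set L : ℝ := 2 * Real.log (2 * m) with hL
  have hmr : (2 : ℝ) ≤ m := by exact_mod_cast hm2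
  have hexpL : Real.exp (L / 2) = 2 * m := by
    rw [hL, mul_div_cancel_left₀ _ (by norm_num : (2 : ℝ) ≠ 0), Real.exp_log (by positivity)]
  set C : ℕ := {g : G | dist I (ra g • I) - dist I (rb g • I) ≤ L + R0}.ncard with hC
  have hab : ∀ R : ℝ, cnt ra (R + R0) ≤ cnt rb (R - L) + C := by
    intro R
    refine (Set.ncard_le_ncard ?_ ((hfb _).union (hfin _))).trans (Set.ncard_union_le _ _)
    intro g hg
    by_cases h : dist I (ra g • I) - dist I (rb g • I) ≤ L + R0
    · exact Or.inr h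
    · left
      have h1 : dist I (ra g • I) ≤ R + R0 := hg
      push Not at h
      show dist I (rb g • I) ≤ R - L
      linarith
  have hrec : ∀ R : ℝ, cnt rb R ≤ m * (cnt rb (R - L) + C) := by
    intro R
    obtain ⟨T, hT1, hT2, hT3⟩ := exists_sep rb hfb R0 hR00 R
    have h1 := sep_le ra hfa R0 hco T (fun t => rb t • I) R hT1 hT2
    calc cnt rb R ≤ cnt rb (2 * R0) * T.card := hT3
      _ ≤ m * (cnt rb (R - L) + C) := Nat.mul_le_mul (le_max_right _ _) (h1.trans (hab R))
  have hu : ∀ k : ℕ, cnt rb (k * L) + 2 * C ≤ m ^ k * (cnt rb 0 + 2 * C) := by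
    intro k
    induction k with
    | zero => simp
    | succ k ih =>
      have h1 := hrec ((k + 1 : ℕ) * L)
      have h2 : ((k + 1 : ℕ) : ℝ) * L - L = k * L := by push_cast; ring
      rw [h2] at h1
      calc cnt rb ((k + 1 : ℕ) * L) + 2 * C ≤ m * (cnt rb (k * L) + C) + m * C :=
            Nat.add_le_add h1 (Nat.mul_le_mul_right _ hm2)
        _ = m * (cnt rb (k * L) + 2 * C) := by ring
        _ ≤ m * (m ^ k * (cnt rb 0 + 2 * C)) := Nat.mul_le_mul_left _ ih
        _ = m ^ (k + 1) * (cnt rb 0 + 2 * C) := by ring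
  set s : ℝ := 2 * Real.exp R0 with hs
  have hspos : 0 < s := by positivity
  set B : ℕ := cnt rb 0 + 2 * C with hB
  have hlow : ∀ k : ℕ, (2 : ℝ) ^ (k + 1) ≤ 2 * s * B := by
    intro k
    set X : ℝ := Real.exp (((k + 1 : ℕ) : ℝ) * L / 2) with hX
    have hXe : X = (2 * m) ^ (k + 1) := by
      rw [hX, mul_div_assoc, Real.exp_nat_mul, hexpL]
    have hX4 : 4 ≤ X := by
      rw [hXe]
      calc (4 : ℝ) ≤ 2 * m := by linarith
        _ = (2 * m) ^ 1 := (pow_one _).symm
        _ ≤ (2 * m) ^ (k + 1) := pow_le_pow_right₀ (by linarith) (by omega)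
    set n : ℕ := ⌊X / (2 * s)⌋₊ with hn
    have hns : (n : ℝ) * s ≤ X / 2 := by
      have h1 : (n : ℝ) ≤ X / (2 * s) := Nat.floor_le (by positivity)
      calc (n : ℝ) * s ≤ X / (2 * s) * s := mul_le_mul_of_nonneg_right h1 hspos.le
        _ = X / 2 := by field_simp
    have hc1 : Real.cosh (((k + 1 : ℕ) : ℝ) * L) ≥ X ^ 2 / 2 := by
      have h1 : Real.exp (((k + 1 : ℕ) : ℝ) * L) = X ^ 2 := by
        rw [hX, sq, ← Real.exp_add]
        congr 1
        ring
      rw [Real.cosh_eq, h1]
      have := Real.exp_pos (-(((k + 1 : ℕ) : ℝ) * L))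
      linarith
    have hLpos : 0 ≤ L := by
      rw [hL]
      have : 0 ≤ Real.log (2 * m) := Real.log_nonneg (by linarith)
      linarith
    have h1 := sep_le ra hfa R0 hco (Finset.range (n + 1)) (fun j => hpt (j * s)) (((k + 1 : ℕ) : ℝ) * L) (by
      intro j hj
      have hjn : (j : ℝ) ≤ n := by
        rw [Finset.mem_range] at hj
        exact_mod_cast (by omega : j ≤ n)
      have h2 : Real.cosh (dist I (hpt (j * s))) ≤ Real.cosh (((k + 1 : ℕ) : ℝ) * L) := by
        rw [← hpt_zero, cosh_hpt]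
        have h3 : (j : ℝ) * s ≤ X / 2 := (mul_le_mul_of_nonneg_right hjn hspos.le).trans hns
        have h4 : 0 ≤ (j : ℝ) * s := by positivity
        have h5 : (0 - (j : ℝ) * s) ^ 2 ≤ (X / 2) ^ 2 := by
          rw [zero_sub, neg_sq]
          exact pow_le_pow_left₀ h4 h3 2
        nlinarith
      rw [Real.cosh_le_cosh, abs_of_nonneg dist_nonneg, abs_of_nonneg (by positivity)] at h2
      exact h2) (by
      intro i _ j _ hij
      have h2 : Real.cosh (2 * R0) < Real.cosh (dist (hpt (i * s)) (hpt (j * s))) := by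
        rw [cosh_hpt]
        have h3 : (1 : ℝ) ≤ ((i : ℝ) - j) ^ 2 := by
          have h4 : (1 : ℤ) ≤ ((i : ℤ) - j) ^ 2 := by
            have h5 : (i : ℤ) - j ≠ 0 := by
              intro h
              apply hij
              omega
            have := sq_nonneg ((i : ℤ) - j)
            have h6 : ((i : ℤ) - j) ^ 2 ≠ 0 := pow_ne_zero 2 h5
            omega
          exact_mod_cast h4
        have h4 : ((i : ℝ) * s - j * s) ^ 2 = ((i : ℝ) - j) ^ 2 * s ^ 2 := by ring
        have h5 : s ^ 2 ≤ ((i : ℝ) - j) ^ 2 * s ^ 2 := le_mul_of_one_le_left (by positivity) h3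
        have h6 : s ^ 2 = 4 * Real.exp (2 * R0) := by
          rw [hs, mul_pow, ← Real.exp_nat_mul]
          norm_num
        have h7 : Real.cosh (2 * R0) ≤ Real.exp (2 * R0) := by
          rw [Real.cosh_eq]
          have : Real.exp (-(2 * R0)) ≤ Real.exp (2 * R0) := Real.exp_le_exp.2 (by linarith)
          linarith
        have h8 := Real.exp_pos (2 * R0)
        rw [h4]
        linarith
      rw [Real.cosh_lt_cosh, abs_of_nonneg (by positivity), abs_of_nonneg dist_nonneg] at h2
      exact h2)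
    rw [Finset.card_range] at h1
    have h2 := h1.trans (hab _)
    have h3 : ((k + 1 : ℕ) : ℝ) * L - L = k * L := by push_cast; ring
    rw [h3] at h2
    have h4 := hu k
    have h5 : n + 1 ≤ m ^ k * B := by omega
    have h6 : X / (2 * s) < n + 1 := Nat.lt_floor_add_one _
    have h7 : ((n + 1 : ℕ) : ℝ) ≤ ((m ^ k * B : ℕ) : ℝ) := by exact_mod_cast h5
    push_cast at h7
    have h8 : X / (2 * s) ≤ m ^ k * B := h6.le.trans h7
    rw [div_le_iff₀ (by positivity), hXe, mul_pow] at h8
    have hmk : (0 : ℝ) < (m : ℝ) ^ k := by positivity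
    have h9 : (2 : ℝ) ^ (k + 1) * m ^ k ≤ (2 * s * B) * m ^ k := by
      calc (2 : ℝ) ^ (k + 1) * m ^ k ≤ 2 ^ (k + 1) * m ^ (k + 1) := by
            apply mul_le_mul_of_nonneg_left _ (by positivity)
            exact pow_le_pow_right₀ (by linarith) (by omega)
        _ ≤ m ^ k * B * (2 * s) := h8
        _ = (2 * s * B) * m ^ k := by ring
    exact le_of_mul_le_mul_right h9 hmk
  obtain ⟨k, hk⟩ := pow_unbounded_of_one_lt (2 * s * B) (by norm_num : (1 : ℝ) < 2)
  have h1 := hlow k
  have h2 : (2 : ℝ) ^ k ≤ 2 ^ (k + 1) := pow_le_pow_right₀ (by norm_num) (by omega)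
  linarith

/-- the three facts together: no group acts with `μ_a - μ_b` proper, `μ_b` proper and the action of
`(ra, rb)` on `SL(2, ℝ)` cocompact -/
theorem no_domination (ra rb : G →* SL(2, ℝ))
    (hfin : ∀ R : ℝ, {g : G | dist I (ra g • I) - dist I (rb g • I) ≤ R}.Finite)
    (hfb : ∀ R : ℝ, {g : G | dist I (rb g • I) ≤ R}.Finite)
    (c : ℝ) (hC : ∀ u : SL(2, ℝ), ∃ g : G, dist (u • rb g • I) (ra g • I) ≤ c) : False := by
  obtain ⟨R0, hR0⟩ := cobounded_of_dominates ra rb hfin c hC
  exact growth_false ra rb hfin hfb R0 hR0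

end F31343.Quot
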