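import Mathlib

/-!
# Moving a point of the hyperbolic plane in the direction of another point
-/

set_option autoImplicit false

open UpperHalfPlane MatrixGroups Matrix

namespace F31343.Quot

theorem hm_cosh_I (w : ℍ) : Real.cosh (dist I w) = (w.re ^ 2 + w.im ^ 2 + 1) / (2 * w.im) := by
  rw [cosh_dist']
  simp
  ring

/-- the point `r i` -/
noncomputable def vpt (r : ℝ) (hr : 0 < r) : ℍ := ⟨⟨0, r⟩, hr⟩

theorem vpt_re (r : ℝ) (hr : 0 < r) : (vpt r hr).re = 0 := rfl
theorem vpt_im (r : ℝ) (hr : 0 < r) : (vpt r hr).im = r := rfl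

theorem hm_cosh_vpt (r : ℝ) (hr : 0 < r) (w : ℍ) :
    Real.cosh (dist (vpt r hr) w) = (w.re ^ 2 + w.im ^ 2 + r ^ 2) / (2 * r * w.im) := by
  rw [cosh_dist', vpt_re, vpt_im]
  ring

theorem hm_dist_vpt (r : ℝ) (hr : 1 ≤ r) : dist I (vpt r (by linarith)) = Real.log r := by
  rw [UpperHalfPlane.dist_of_re_eq (by rw [vpt_re]; simp), vpt_im]
  simp only [UpperHalfPlane.I_im, Real.log_one]
  rw [Real.dist_eq, zero_sub, abs_neg, abs_of_nonneg (Real.log_nonneg hr)]

/-- the model case of the move -/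
theorem hm_move0 (r : ℝ) (hr : 1 ≤ r) (w : ℍ) :
    (1 ≤ dist I w → dist (vpt 4 (by norm_num)) w ≤ dist I w - 1 / 4) ∨
      dist I w + dist I (vpt r (by linarith)) - Real.log 30 ≤ dist w (vpt r (by linarith)) := by
  have hy := w.im_pos
  have h1 := hm_cosh_I w
  rcases le_total 15 (w.re ^ 2 + w.im ^ 2 + 1) with h | h
  · left
    intro hd
    have h2 := hm_cosh_vpt 4 (by norm_num) w
    have h3 : Real.cosh (dist (vpt 4 (by norm_num)) w) ≤ Real.cosh (dist I w) / 2 := by
      rw [h2, h1, div_div, div_le_div_iff₀ (by positivity) (by positivity)]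
      nlinarith
    have h4 : Real.exp (dist (vpt 4 (by norm_num)) w) ≤ 2 * Real.cosh (dist (vpt 4 (by norm_num)) w) := by
      rw [Real.cosh_eq]
      have := Real.exp_pos (-dist (vpt 4 (by norm_num)) w)
      linarith
    have h5 : Real.cosh (dist I w) ≤ Real.exp (dist I w - 1 / 4) := by
      rw [Real.cosh_eq, sub_eq_add_neg (dist I w), Real.exp_add]
      have h6 : Real.exp (-dist I w) ≤ Real.exp (dist I w) * (1 / 2) := by
        have h7 : Real.exp (-dist I w) = Real.exp (dist I w) * Real.exp (-(2 * dist I w)) := by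
          rw [← Real.exp_add]
          congr 1
          ring
        rw [h7]
        apply mul_le_mul_of_nonneg_left _ (Real.exp_pos _).le
        have h8 : Real.exp (-(2 * dist I w)) ≤ (2 * dist I w + 1)⁻¹ := by
          rw [Real.exp_neg]
          exact inv_anti₀ (by positivity) (Real.add_one_le_exp _)
        refine h8.trans ?_
        rw [inv_eq_one_div, div_le_div_iff₀ (by positivity) (by norm_num)]
        linarith
      have h9 : (3 / 4 : ℝ) ≤ Real.exp (-(1 / 4)) := by
        have := Real.add_one_le_exp (-(1 / 4) : ℝ)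
        linarith
      have h10 := mul_le_mul_of_nonneg_left h9 (Real.exp_pos (dist I w)).le
      linarith
    have h6 : Real.exp (dist (vpt 4 (by norm_num)) w) ≤ Real.exp (dist I w - 1 / 4) := by linarith
    exact Real.exp_le_exp.1 h6
  · right
    have hr0 : (0 : ℝ) < r := by linarith
    have h2 := hm_cosh_vpt r hr0 w
    have h3 : r / 15 * Real.cosh (dist I w) ≤ Real.cosh (dist (vpt r hr0) w) := by
      rw [h2, h1, div_mul_div_comm, div_le_div_iff₀ (by positivity) (by positivity)]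
      have h4 : 0 ≤ w.re ^ 2 + w.im ^ 2 := by positivity
      have h5 : r * (w.re ^ 2 + w.im ^ 2 + 1) * (2 * r * w.im) ≤ r * 15 * (2 * r * w.im) := by
        apply mul_le_mul_of_nonneg_right _ (by positivity)
        exact mul_le_mul_of_nonneg_left h hr0.le
      have h6 : r * 15 * (2 * r * w.im) ≤ (w.re ^ 2 + w.im ^ 2 + r ^ 2) * (15 * (2 * w.im)) := by
        have h7 : 0 ≤ (w.re ^ 2 + w.im ^ 2) * (15 * (2 * w.im)) := by positivity
        nlinarith
      exact h5.trans h6
    have h4 : Real.cosh (dist (vpt r hr0) w) ≤ Real.exp (dist (vpt r hr0) w) := by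
      rw [Real.cosh_eq]
      have : Real.exp (-dist (vpt r hr0) w) ≤ Real.exp (dist (vpt r hr0) w) :=
        Real.exp_le_exp.2 (by have := dist_nonneg (x := vpt r hr0) (y := w); linarith)
      linarith
    have h5 : Real.exp (dist I w) / 2 ≤ Real.cosh (dist I w) := by
      rw [Real.cosh_eq]
      have := Real.exp_pos (-dist I w)
      linarith
    have h6 : Real.exp (dist I w + dist I (vpt r hr0) - Real.log 30) ≤ Real.exp (dist (vpt r hr0) w) := by
      rw [Real.exp_sub, Real.exp_add, hm_dist_vpt r hr, Real.exp_log hr0, Real.exp_log (by norm_num)]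
      have h7 : r / 15 * (Real.exp (dist I w) / 2) ≤ r / 15 * Real.cosh (dist I w) :=
        mul_le_mul_of_nonneg_left h5 (by positivity)
      have h8 : Real.exp (dist I w) * r / 30 = r / 15 * (Real.exp (dist I w) / 2) := by ring
      linarith
    have h7 := Real.exp_le_exp.1 h6
    rw [dist_comm w]
    exact h7

/-- rotation by the angle `θ` -/
noncomputable def rotM (θ : ℝ) : SL(2, ℝ) :=
  ⟨!![Real.cos θ, Real.sin θ; -Real.sin θ, Real.cos θ], by
    rw [Matrix.det_fin_two_of]
    have := Real.sin_sq_add_cos_sq θ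
    nlinarith⟩

theorem rotM_coe (θ : ℝ) (w : ℍ) : ((rotM θ • w : ℍ) : ℂ) =
    ((Real.cos θ : ℂ) * w + Real.sin θ) / (-(Real.sin θ : ℂ) * w + Real.cos θ) := by
  rw [coe_specialLinearGroup_apply]
  simp [rotM]

theorem rotM_den (θ : ℝ) (w : ℍ) : (-(Real.sin θ : ℂ) * w + Real.cos θ) ≠ 0 := by
  intro h
  have h1 := congrArg Complex.im h
  have h2 := congrArg Complex.re h
  simp [-Complex.ofReal_sin, -Complex.ofReal_cos] at h1 h2
  have hy := w.im_pos
  have h3 : Real.sin θ = 0 := by
    rcases h1 with h1 | h1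
    · exact h1
    · exact absurd h1 hy.ne'
  rw [h3] at h2
  have := Real.sin_sq_add_cos_sq θ
  rw [h3] at this
  have h4 : Real.cos θ = 0 := by linarith
  rw [h4] at this
  norm_num at this

theorem rotM_I (θ : ℝ) : rotM θ • I = I := by
  apply UpperHalfPlane.ext
  rw [rotM_coe, div_eq_iff (rotM_den θ I), UpperHalfPlane.coe_I]
  have := Complex.I_mul_I
  linear_combination (Real.sin θ : ℂ) * this

theorem rotM_re (θ : ℝ) (w : ℍ) : ∃ D : ℝ, (rotM θ • w).re = (Real.sin θ * Real.cos θ * (1 - w.re ^ 2 - w.im ^ 2) +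
    (Real.cos θ ^ 2 - Real.sin θ ^ 2) * w.re) / D := by
  refine ⟨Complex.normSq (-(Real.sin θ : ℂ) * w + Real.cos θ), ?_⟩
  have h1 : (rotM θ • w).re = ((rotM θ • w : ℍ) : ℂ).re := rfl
  rw [h1, rotM_coe, Complex.div_re, ← add_div]
  congr 1
  simp [-Complex.ofReal_sin, -Complex.ofReal_cos]
  ring


theorem vpt_eq (z : ℍ) (h : z.re = 0) : z = vpt z.im z.im_pos := by
  apply UpperHalfPlane.ext
  apply Complex.ext
  · exact h
  · rfl

/-- every point can be rotated around `i` to a point `r i` with `r ≥ 1` -/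
theorem exists_rot (w : ℍ) : ∃ k : SL(2, ℝ), k • I = I ∧ ∃ (r : ℝ) (hr : 1 ≤ r), k • w = vpt r (by linarith) := by
  have hcont : Continuous (fun θ : ℝ => Real.sin θ * Real.cos θ * (1 - w.re ^ 2 - w.im ^ 2) +
      (Real.cos θ ^ 2 - Real.sin θ ^ 2) * w.re) := by fun_prop
  have hz : (0 : ℝ) ∈ Set.range (fun θ : ℝ => Real.sin θ * Real.cos θ * (1 - w.re ^ 2 - w.im ^ 2) +
      (Real.cos θ ^ 2 - Real.sin θ ^ 2) * w.re) := by
    rcases le_total 0 w.re with h | h
    · apply mem_range_of_exists_le_of_exists_ge hcont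
      · exact ⟨Real.pi / 2, by simp [h]⟩
      · exact ⟨0, by simp [h]⟩
    · apply mem_range_of_exists_le_of_exists_ge hcont
      · exact ⟨0, by simp [h]⟩
      · exact ⟨Real.pi / 2, by simp [h]⟩
  obtain ⟨θ, hθ⟩ := hz
  simp only at hθ
  obtain ⟨D, hD⟩ := rotM_re θ w
  rw [hθ, zero_div] at hD
  set z := rotM θ • w with hzdef
  by_cases h1 : 1 ≤ z.im
  · exact ⟨rotM θ, rotM_I θ, z.im, h1, vpt_eq z hD⟩
  · refine ⟨rotM (Real.pi / 2) * rotM θ, ?_, (z.im)⁻¹, ?_, ?_⟩
    · rw [mul_smul, rotM_I, rotM_I]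
    · rw [one_le_inv₀ z.im_pos]
      linarith
    · rw [mul_smul, ← hzdef]
      apply UpperHalfPlane.ext
      rw [rotM_coe]
      have h2 : (z : ℂ) = Complex.I * z.im := by
        apply Complex.ext
        · simpa using hD
        · simp
      have h3 : ((vpt (z.im)⁻¹ (by have := z.im_pos; positivity) : ℍ) : ℂ) = Complex.I * ((z.im)⁻¹ : ℝ) := by
        apply Complex.ext
        · simp [vpt]
        · simp [vpt]
      rw [h3, h2, Real.cos_pi_div_two, Real.sin_pi_div_two]
      have h4 : (z.im : ℂ) ≠ 0 := by exact_mod_cast z.im_pos.ne'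
      have h5 : Complex.I ≠ 0 := Complex.I_ne_zero
      push_cast
      field_simp
      linear_combination (z.im : ℂ) * Complex.I_mul_I

/-- moving a point towards `w0` by `log 4` -/
theorem hm_move (p w0 : ℍ) : ∃ p' : ℍ, dist p p' ≤ Real.log 4 ∧ ∀ w : ℍ,
    (1 ≤ dist p w → dist p' w ≤ dist p w - 1 / 4) ∨ dist p w + dist p w0 - Real.log 30 ≤ dist w w0 := by
  obtain ⟨g, hg⟩ := MulAction.exists_smul_eq SL(2, ℝ) p I
  obtain ⟨k, hk, r, hr, hkr⟩ := exists_rot (g • w0)
  set u := k * g with hu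
  have hup : u • p = I := by rw [hu, mul_smul, hg, hk]
  have huw : u • w0 = vpt r (by linarith) := by rw [hu, mul_smul, hkr]
  refine ⟨u⁻¹ • vpt 4 (by norm_num), ?_, ?_⟩
  · rw [← dist_smul u, hup, smul_inv_smul, hm_dist_vpt 4 (by norm_num)]
  · intro w
    have h1 : dist p w = dist I (u • w) := by rw [← dist_smul u, hup]
    have h2 : dist p w0 = dist I (vpt r (by linarith)) := by rw [← dist_smul u, hup, huw]
    have h3 : dist w w0 = dist (u • w) (vpt r (by linarith)) := by rw [← dist_smul u, huw]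
    have h4 : dist (u⁻¹ • vpt 4 (by norm_num)) w = dist (vpt 4 (by norm_num)) (u • w) := by
      rw [← dist_smul u, smul_inv_smul]
    rw [h1, h2, h3, h4]
    exact hm_move0 r hr (u • w)

end F31343.Quot
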