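import Pool.Agent.Lib_MP_f31343_q.Signs
import Pool.Agent.Lib_MP_f31343_dis.Core

/-!
# Link between the two models
-/

set_option autoImplicit false

open UpperHalfPlane MatrixGroups Matrix

namespace F31343.Quot

open F31343D

theorem lk_smul (x : SL(2, ℝ)) : (((x • I : ℍ) : ℂ).re ^ 2 + ((x • I : ℍ) : ℂ).im ^ 2 + 1) / (2 * ((x • I : ℍ) : ℂ).im) =
    (x.1 0 0 ^ 2 + x.1 0 1 ^ 2 + x.1 1 0 ^ 2 + x.1 1 1 ^ 2) / 2 := by
  have hdet := x.det_coe
  rw [Matrix.det_fin_two] at hdet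
  rw [coe_specialLinearGroup_apply]
  simp only [Algebra.algebraMap_self, RingHom.id_apply, UpperHalfPlane.coe_I]
  set a := x.1 0 0 with ha
  set b := x.1 0 1 with hb
  set c := x.1 1 0 with hc
  set d := x.1 1 1 with hd
  have hn : c ^ 2 + d ^ 2 ≠ 0 := by
    intro h
    have h1 : c = 0 := by nlinarith [sq_nonneg c, sq_nonneg d]
    have h2 : d = 0 := by nlinarith [sq_nonneg c, sq_nonneg d]
    rw [h1, h2] at hdet
    norm_num at hdet
  have hz : ((c : ℂ) * Complex.I + d) ≠ 0 := by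
    intro h
    apply hn
    have h1 := congrArg Complex.re h
    have h2 := congrArg Complex.im h
    simp at h1 h2
    rw [h1, h2]
    ring
  have hN : Complex.normSq ((c : ℂ) * Complex.I + d) = c ^ 2 + d ^ 2 := by
    rw [Complex.normSq_apply]
    simp
    ring
  have e1 : ((c : ℂ) * Complex.I + d).re = d := by simp
  have e2 : ((c : ℂ) * Complex.I + d).im = c := by simp
  have e3 : ((a : ℂ) * Complex.I + b).re = b := by simp
  have e4 : ((a : ℂ) * Complex.I + b).im = a := by simp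
  have hre : (((a : ℂ) * Complex.I + b) / ((c : ℂ) * Complex.I + d)).re = (a * c + b * d) / (c ^ 2 + d ^ 2) := by
    rw [Complex.div_re, hN, e1, e2, e3, e4, ← add_div]
    congr 1
    ring
  have him : (((a : ℂ) * Complex.I + b) / ((c : ℂ) * Complex.I + d)).im = 1 / (c ^ 2 + d ^ 2) := by
    rw [Complex.div_im, hN, e1, e2, e3, e4, ← sub_div]
    congr 1
  rw [hre, him]
  field_simp
  have h3 : (a * c + b * d) ^ 2 + 1 = (a ^ 2 + b ^ 2) * (c ^ 2 + d ^ 2) := by
    linear_combination (-(a * d - b * c) - 1) * hdet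
  nlinarith

theorem two_mu (x : SL2) : dist I (x • I) = 2 * mu x := by
  have h1 := hm_cosh_I (x • I)
  have h2 : ((x • I : ℍ).re ^ 2 + (x • I : ℍ).im ^ 2 + 1) / (2 * (x • I : ℍ).im) = P x := by
    have h3 := lk_smul x
    have h4 : P x = (x.1 0 0 ^ 2 + x.1 0 1 ^ 2 + x.1 1 0 ^ 2 + x.1 1 1 ^ 2) / 2 := by
      unfold P
      rw [← Complex.normSq_eq_norm_sq, ← Complex.normSq_eq_norm_sq, Complex.normSq_apply, Complex.normSq_apply]
      simp only [al, be]
      ring
    rw [h4]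
    exact h3
  rw [h2, P_eq] at h1
  have h5 := mu_nonneg x
  have h6 : (0 : ℝ) ≤ 2 * mu x := by linarith
  apply le_antisymm
  · have h7 := h1.le
    rwa [Real.cosh_le_cosh, abs_of_nonneg dist_nonneg, abs_of_nonneg h6] at h7
  · have h7 := h1.ge
    rwa [Real.cosh_le_cosh, abs_of_nonneg dist_nonneg, abs_of_nonneg h6] at h7

/-- no group is bad -/
theorem no_bad {Γ : Type*} [Group Γ] {ρ : Fin 3 → Γ →* SL2} (h : Bad Γ ρ) : False := by
  have hC : ∀ i j : Fin 3, ∃ c : ℝ, i ≠ j → ∀ u : SL2, ∃ γ : Γ, mu ((ρ i γ)⁻¹ * u * ρ j γ) ≤ c := by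
    intro i j
    by_cases hij : i = j
    · exact ⟨0, fun h => absurd hij h⟩
    · obtain ⟨c, hc⟩ := h.cc' hij
      exact ⟨c, fun _ => hc⟩
  choose C hC using hC
  have hle : ∀ i j : Fin 3, C i j ≤ ∑ i : Fin 3, ∑ j : Fin 3, |C i j| := by
    intro i j
    refine (le_abs_self _).trans (le_trans
      (Finset.single_le_sum (f := fun j => |C i j|) (fun j _ => abs_nonneg _) (Finset.mem_univ j)) ?_)
    exact Finset.single_le_sum (f := fun i => ∑ j : Fin 3, |C i j|)
      (fun i _ => Finset.sum_nonneg fun j _ => abs_nonneg _) (Finset.mem_univ i)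
  refine no_three ρ ?_ (2 * ∑ i : Fin 3, ∑ j : Fin 3, |C i j|) ?_
  · intro i j hij R
    refine (h.diff hij (R / 2)).subset ?_
    intro γ hγ
    have hγ' : |dist I (ρ i γ • I) - dist I (ρ j γ • I)| ≤ R := hγ
    rw [two_mu, two_mu, ← mul_sub, abs_mul, abs_of_pos (by norm_num : (0 : ℝ) < 2)] at hγ'
    show |mu (ρ i γ) - mu (ρ j γ)| ≤ R / 2
    linarith
  · intro i j hij u
    obtain ⟨γ, hγ⟩ := hC i j hij u
    refine ⟨γ, ?_⟩
    have h1 : dist (u • ρ j γ • I) (ρ i γ • I) = 2 * mu ((ρ i γ)⁻¹ * u * ρ j γ) := by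
      rw [← two_mu, mul_smul, mul_smul, dist_comm, ← dist_smul (ρ i γ) I, smul_inv_smul]
    rw [h1]
    have := hle i j
    linarith

end F31343.Quot
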