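import Pool.Agent.Lib_MP_f31343_q.Growth

/-!
# The sign of `μ_a - μ_b`
-/

set_option autoImplicit false

open UpperHalfPlane MatrixGroups Matrix

namespace F31343.Quot

/-- the diagonal matrix with entries `e^(t/2)`, `e^(-t/2)` -/
noncomputable def diagM (t : ℝ) : SL(2, ℝ) :=
  ⟨!![Real.exp (t / 2), 0; 0, Real.exp (-(t / 2))], by
    rw [Matrix.det_fin_two_of, ← Real.exp_add]
    simp⟩

theorem diagM_I (t : ℝ) : diagM t • I = vpt (Real.exp t) (Real.exp_pos t) := by
  apply UpperHalfPlane.ext
  rw [coe_specialLinearGroup_apply]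
  have h1 : ((vpt (Real.exp t) (Real.exp_pos t) : ℍ) : ℂ) = Real.exp t * Complex.I := by
    apply Complex.ext
    · simp [vpt, -Complex.ofReal_exp]
    · simp [vpt, -Complex.ofReal_exp]
  rw [h1]
  simp only [diagM, Matrix.SpecialLinearGroup.coe_mk, Matrix.of_apply, Matrix.cons_val', Matrix.cons_val_zero,
    Matrix.cons_val_one, Matrix.cons_val_fin_one, UpperHalfPlane.coe_I]
  simp only [Algebra.algebraMap_self, RingHom.id_apply, Complex.ofReal_zero, zero_mul, add_zero, zero_add]
  have h2 : (Real.exp (-(t / 2)) : ℂ) ≠ 0 := by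
    exact_mod_cast (Real.exp_pos _).ne'
  rw [div_eq_iff h2]
  have h3 : (Real.exp t : ℂ) * Real.exp (-(t / 2)) = Real.exp (t / 2) := by
    rw [← Complex.ofReal_mul, ← Real.exp_add]
    congr 2
    ring
  linear_combination (-Complex.I) * h3

theorem stab_I (g : SL(2, ℝ)) (hg : g • I = I) : ∃ θ : ℝ, g = rotM θ := by
  have h1 : ((g • I : ℍ) : ℂ) = ((I : ℍ) : ℂ) := by rw [hg]
  rw [coe_specialLinearGroup_apply] at h1
  have h2 := (div_eq_iff (by
    intro h
    rw [h, div_zero, UpperHalfPlane.coe_I] at h1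
    exact Complex.I_ne_zero h1.symm)).1 h1
  simp only [Algebra.algebraMap_self, RingHom.id_apply, UpperHalfPlane.coe_I] at h2
  have h3 := congrArg Complex.re h2
  have h4 := congrArg Complex.im h2
  simp at h3 h4
  have hdet := g.det_coe
  rw [Matrix.det_fin_two] at hdet
  set z : ℂ := ⟨g 0 0, g 0 1⟩ with hz
  have hn : ‖z‖ = 1 := by
    rw [Complex.norm_def, Complex.normSq_apply]
    rw [Real.sqrt_eq_one]
    show g 0 0 * g 0 0 + g 0 1 * g 0 1 = 1
    have : g.1 1 0 = - g.1 0 1 := by
      have : g 1 0 = - g 0 1 := by linarith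
      exact this
    rw [this] at hdet
    have h5 : g.1 1 1 = g.1 0 0 := h4.symm
    rw [h5] at hdet
    show g.1 0 0 * g.1 0 0 + g.1 0 1 * g.1 0 1 = 1
    linarith
  have hz0 : z ≠ 0 := by
    intro h
    rw [h, norm_zero] at hn
    norm_num at hn
  have hc := Complex.cos_arg hz0
  have hs := Complex.sin_arg z
  rw [hn, div_one] at hc hs
  have hc' : g.1 0 0 = Real.cos z.arg := hc.symm
  have hs' : g.1 0 1 = Real.sin z.arg := hs.symm
  refine ⟨Complex.arg z, ?_⟩
  clear_value z
  generalize z.arg = α at hc' hs'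
  have h10 : g.1 1 0 = -Real.sin α := by
    rw [← hs']
    linarith
  have h11 : g.1 1 1 = Real.cos α := by
    rw [← hc']
    exact h4.symm
  apply Matrix.SpecialLinearGroup.ext
  intro i j
  fin_cases i <;> fin_cases j
  · exact hc'
  · exact hs'
  · exact h10
  · exact h11

theorem rotM_inv_I (θ : ℝ) : (rotM θ)⁻¹ • I = I := by
  rw [inv_smul_eq_iff, rotM_I]

/-- displacement of a product -/
theorem dist_kak (θ t φ : ℝ) (ht : 0 ≤ t) : dist I ((rotM θ * diagM t * rotM φ) • I) = t := by
  rw [mul_smul, mul_smul, rotM_I, diagM_I]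
  have h1 := dist_smul (rotM θ)⁻¹ I (rotM θ • vpt (Real.exp t) (Real.exp_pos t))
  rw [inv_smul_smul, rotM_inv_I] at h1
  rw [← h1, hm_dist_vpt (Real.exp t) (Real.one_le_exp ht), Real.log_exp]

/-- the Cartan decomposition -/
theorem exists_kak (u : SL(2, ℝ)) : ∃ θ φ : ℝ, u = rotM θ * diagM (dist I (u • I)) * rotM φ := by
  obtain ⟨k, hk, r, hr, hkr⟩ := exists_rot (u • I)
  have h1 : dist I (u • I) = Real.log r := by
    rw [← dist_smul k, hk, hkr, hm_dist_vpt r hr]
  have h2 : diagM (dist I (u • I)) • I = k • u • I := by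
    rw [diagM_I, hkr]
    congr 1
    rw [h1, Real.exp_log (by linarith)]
  obtain ⟨φ, hφ⟩ := stab_I ((diagM (dist I (u • I)))⁻¹ * (k * u)) (by
    rw [mul_smul, mul_smul, ← h2, inv_smul_smul])
  obtain ⟨θ, hθ⟩ := stab_I k⁻¹ (by rw [inv_smul_eq_iff, hk])
  refine ⟨θ, φ, ?_⟩
  rw [← hθ, ← hφ]
  group

theorem continuous_rotM : Continuous rotM := by
  apply Continuous.subtype_mk
  apply continuous_matrix
  intro i j
  fin_cases i <;> fin_cases j <;> simp <;> fun_prop

theorem continuous_diagM : Continuous diagM := by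
  apply Continuous.subtype_mk
  apply continuous_matrix
  intro i j
  fin_cases i <;> fin_cases j <;> simp <;> fun_prop

/-- the complement of a ball is connected -/
theorem isPreconnected_far (r : ℝ) (hr : 0 ≤ r) : IsPreconnected {u : SL(2, ℝ) | r < dist I (u • I)} := by
  have h1 : {u : SL(2, ℝ) | r < dist I (u • I)} =
      (fun p : ℝ × ℝ × ℝ => rotM p.1 * diagM p.2.1 * rotM p.2.2) '' (Set.univ ×ˢ (Set.Ioi r ×ˢ Set.univ)) := by
    ext u
    constructor
    · intro hu
      obtain ⟨θ, φ, h⟩ := exists_kak u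
      exact ⟨(θ, dist I (u • I), φ), ⟨Set.mem_univ _, hu, Set.mem_univ _⟩, h.symm⟩
    · rintro ⟨⟨θ, t, φ⟩, ⟨-, ht, -⟩, rfl⟩
      have ht' : r < t := ht
      show r < dist I ((rotM θ * diagM t * rotM φ) • I)
      rw [dist_kak θ t φ (by linarith)]
      exact ht'
  rw [h1]
  apply IsPreconnected.image
  · exact isPreconnected_univ.prod (isPreconnected_Ioi.prod isPreconnected_univ)
  · apply Continuous.continuousOn
    have := continuous_rotM
    have := continuous_diagM
    fun_prop

variable {G : Type*} [Group G]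

/-- `μ_a - μ_b` tends to infinity -/
def Dom (ra rb : G →* SL(2, ℝ)) : Prop :=
  ∀ R : ℝ, {g : G | dist I (ra g • I) - dist I (rb g • I) ≤ R}.Finite

theorem dom_or (ra rb : G →* SL(2, ℝ))
    (hP : ∀ R : ℝ, {g : G | |dist I (ra g • I) - dist I (rb g • I)| ≤ R}.Finite)
    (c : ℝ) (hC : ∀ u : SL(2, ℝ), ∃ g : G, dist (u • rb g • I) (ra g • I) ≤ c) :
    Dom ra rb ∨ Dom rb ra := by
  have hc0 : 0 ≤ c := by
    obtain ⟨g, hg⟩ := hC 1
    exact dist_nonneg.trans hg
  set A : G → Set SL(2, ℝ) := fun g => {u | dist (u • rb g • I) (ra g • I) ≤ c} with hA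
  set f : G → ℝ := fun g => dist I (ra g • I) - dist I (rb g • I) with hf
  have A1 : ∀ g, ∀ u ∈ A g, |f g| ≤ dist I (u • I) + c := by
    intro g u hu
    have hu' : dist (u • rb g • I) (ra g • I) ≤ c := hu
    have e1 : dist (u • I) (u • rb g • I) = dist I (rb g • I) := dist_smul u _ _
    have e2 := dist_triangle4 I (u • I) (u • rb g • I) (ra g • I)
    have e3 := dist_triangle4 (u • I) I (ra g • I) (u • rb g • I)
    rw [dist_comm (u • I) I, dist_comm (ra g • I) (u • rb g • I)] at e3
    rw [abs_le]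
    constructor
    · show -(dist I (u • I) + c) ≤ dist I (ra g • I) - dist I (rb g • I)
      linarith
    · show dist I (ra g • I) - dist I (rb g • I) ≤ dist I (u • I) + c
      linarith
  have A2 : ∀ g, ∀ u ∈ A g, dist I (u • I) ≤ dist I (ra g • I) + dist I (rb g • I) + c := by
    intro g u hu
    have hu' : dist (u • rb g • I) (ra g • I) ≤ c := hu
    have e1 : dist (u • I) (u • rb g • I) = dist I (rb g • I) := dist_smul u _ _
    have e2 := dist_triangle4 I (ra g • I) (u • rb g • I) (u • I)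
    rw [dist_comm (ra g • I) (u • rb g • I), dist_comm (u • rb g • I) (u • I)] at e2
    linarith
  have A3 : ∀ g h, ∀ u ∈ A g, u ∈ A h → |f (g⁻¹ * h)| ≤ 2 * c := by
    intro g h u hu hu'
    have h1 : dist (u • rb g • I) (ra g • I) ≤ c := hu
    have h2 : dist (u • rb h • I) (ra h • I) ≤ c := hu'
    have e1 : dist (u • rb g • I) (u • rb h • I) = dist (rb g • I) (rb h • I) := dist_smul u _ _
    have e2 := dist_triangle4 (ra g • I) (u • rb g • I) (u • rb h • I) (ra h • I)
    have e3 := dist_triangle4 (u • rb g • I) (ra g • I) (ra h • I) (u • rb h • I)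
    rw [dist_comm (ra g • I) (u • rb g • I)] at e2
    rw [dist_comm (ra h • I) (u • rb h • I)] at e3
    rw [abs_le]
    simp only [hf]
    rw [← dist_orbit, ← dist_orbit]
    constructor <;> linarith
  obtain ⟨B, hB0, hB⟩ : ∃ B : ℝ, 0 ≤ B ∧ ∀ g, |f g| ≤ 2 * c → dist I (ra g • I) ≤ B ∧ dist I (rb g • I) ≤ B := by
    obtain ⟨B1, hB1⟩ := ((hP (2 * c)).image (fun g => dist I (ra g • I))).bddAbove
    obtain ⟨B2, hB2⟩ := ((hP (2 * c)).image (fun g => dist I (rb g • I))).bddAbove
    refine ⟨max 0 (max B1 B2), le_max_left _ _, fun g hg => ⟨?_, ?_⟩⟩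
    · exact (hB1 ⟨g, hg, rfl⟩).trans ((le_max_left _ _).trans (le_max_right _ _))
    · exact (hB2 ⟨g, hg, rfl⟩).trans ((le_max_right _ _).trans (le_max_right _ _))
  have A4 : ∀ g h, ∀ u ∈ A g, u ∈ A h → |f h - f g| ≤ 2 * B := by
    intro g h u hu hu'
    obtain ⟨h1, h2⟩ := hB _ (A3 g h u hu hu')
    rw [← dist_orbit] at h1 h2
    have e1 := dist_triangle I (ra g • I) (ra h • I)
    have e2 := dist_triangle I (ra h • I) (ra g • I)
    have e3 := dist_triangle I (rb g • I) (rb h • I)
    have e4 := dist_triangle I (rb h • I) (rb g • I)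
    rw [dist_comm (ra h • I)] at e2
    rw [dist_comm (rb h • I)] at e4
    rw [abs_le]
    simp only [hf]
    constructor <;> linarith
  set c0 : ℝ := B + 1 with hc0'
  obtain ⟨r, hr0, hr⟩ : ∃ r : ℝ, 0 ≤ r ∧ ∀ g, |f g| ≤ c0 → ∀ u ∈ A g, dist I (u • I) ≤ r := by
    obtain ⟨B1, hB1⟩ := ((hP c0).image (fun g => dist I (ra g • I) + dist I (rb g • I) + c)).bddAbove
    refine ⟨max 0 B1, le_max_left _ _, fun g hg u hu => ?_⟩
    exact (A2 g u hu).trans ((hB1 ⟨g, hg, rfl⟩).trans (le_max_right _ _))
  have hclosed : ∀ g, IsClosed (A g) := by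
    intro g
    apply isClosed_le _ continuous_const
    exact (continuous_id.smul continuous_const).dist continuous_const
  have hunion : ∀ P : G → Prop, IsClosed (⋃ g : {g : G // P g}, A g) := by
    intro P
    apply LocallyFinite.isClosed_iUnion
    · intro u
      refine ⟨{v | dist I (v • I) < dist I (u • I) + 1}, ?_, ?_⟩
      · apply IsOpen.mem_nhds
        · apply isOpen_lt _ continuous_const
          exact continuous_const.dist (continuous_id.smul continuous_const)
        · show dist I (u • I) < dist I (u • I) + 1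
          linarith
      · apply Set.Finite.subset ((hP (dist I (u • I) + 1 + c)).preimage (Subtype.val_injective.injOn))
        rintro ⟨g, hg⟩ ⟨v, hv1, hv2⟩
        have h1 := A1 g v hv1
        have h2 : dist I (v • I) < dist I (u • I) + 1 := hv2
        show |f g| ≤ dist I (u • I) + 1 + c
        linarith
    · intro g
      exact hclosed g
  have hpre := isPreconnected_far r hr0
  rw [isPreconnected_closed_iff] at hpre
  have hcov : {u : SL(2, ℝ) | r < dist I (u • I)} ⊆
      (⋃ g : {g : G // c0 < f g}, A g) ∪ (⋃ g : {g : G // f g < -c0}, A g) := by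
    intro u hu
    obtain ⟨g, hg⟩ := hC u
    have hg' : u ∈ A g := hg
    have h1 : ¬ |f g| ≤ c0 := by
      intro h
      have := hr g h u hg'
      have hu' : r < dist I (u • I) := hu
      linarith
    rw [abs_le, not_and_or] at h1
    push Not at h1
    rcases h1 with h1 | h1
    · right
      exact Set.mem_iUnion.2 ⟨⟨g, h1⟩, hg'⟩
    · left
      exact Set.mem_iUnion.2 ⟨⟨g, h1⟩, hg'⟩
  -- if one of the unions is bounded then we are done
  have hfinish : ∀ P : G → Prop, (∀ g, P g → ∀ u ∈ A g, dist I (u • I) ≤ r) → {g : G | P g}.Finite := by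
    intro P hP'
    apply (hP (r + c)).subset
    intro g hg
    have h1 : ra g * (rb g)⁻¹ ∈ A g := by
      show dist ((ra g * (rb g)⁻¹) • rb g • I) (ra g • I) ≤ c
      rw [mul_smul, inv_smul_smul, dist_self]
      exact hc0
    have h2 := hP' g hg _ h1
    have h3 := A1 g _ h1
    show |f g| ≤ r + c
    linarith
  by_cases hp : ∃ u, r < dist I (u • I) ∧ u ∈ ⋃ g : {g : G // c0 < f g}, A g
  · by_cases hn : ∃ u, r < dist I (u • I) ∧ u ∈ ⋃ g : {g : G // f g < -c0}, A g
    · exfalso
      obtain ⟨u, hu1, hu2⟩ := hp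
      obtain ⟨v, hv1, hv2⟩ := hn
      obtain ⟨x, hx1, hx2, hx3⟩ := hpre _ _ (hunion _) (hunion _) hcov ⟨u, hu1, hu2⟩ ⟨v, hv1, hv2⟩
      obtain ⟨⟨g, hg⟩, hxg⟩ := Set.mem_iUnion.1 hx2
      obtain ⟨⟨h, hh⟩, hxh⟩ := Set.mem_iUnion.1 hx3
      have h1 := A4 g h x hxg hxh
      rw [abs_le] at h1
      linarith [h1.1]
    · left
      push Not at hn
      have h1 : {g : G | f g < -c0}.Finite := by
        apply hfinish
        intro g hg u hu
        by_contra hlt
        push Not at hlt
        exact hn u hlt (Set.mem_iUnion.2 ⟨⟨g, hg⟩, hu⟩)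
      intro R
      apply ((hP (max R c0)).union h1).subset
      intro g hg
      have hg' : f g ≤ R := hg
      by_cases h2 : f g < -c0
      · exact Or.inr h2
      · left
        push Not at h2
        show |f g| ≤ max R c0
        rw [abs_le]
        have h3 := le_max_left R c0
        have h4 := le_max_right R c0
        constructor <;> linarith
  · right
    push Not at hp
    have h1 : {g : G | c0 < f g}.Finite := by
      apply hfinish
      intro g hg u hu
      by_contra hlt
      push Not at hlt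
      exact hp u hlt (Set.mem_iUnion.2 ⟨⟨g, hg⟩, hu⟩)
    intro R
    apply ((hP (max R c0)).union h1).subset
    intro g hg
    have hg' : dist I (rb g • I) - dist I (ra g • I) ≤ R := hg
    have hg'' : -R ≤ f g := by
      show -R ≤ dist I (ra g • I) - dist I (rb g • I)
      linarith
    by_cases h2 : c0 < f g
    · exact Or.inr h2
    · left
      push Not at h2
      show |f g| ≤ max R c0
      rw [abs_le]
      have h3 := le_max_left R c0
      have h4 := le_max_right R c0
      constructor <;> linarith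

/-- a domination chain is impossible -/
theorem no_chain (ra rb rc : G →* SL(2, ℝ)) (hab : Dom ra rb) (hbc : Dom rb rc)
    (c : ℝ) (hC : ∀ u : SL(2, ℝ), ∃ g : G, dist (u • rb g • I) (ra g • I) ≤ c) : False := by
  apply no_domination ra rb hab _ c hC
  intro R
  apply (hbc R).subset
  intro g hg
  have h1 : dist I (rb g • I) ≤ R := hg
  have h2 : 0 ≤ dist I (rc g • I) := dist_nonneg
  show dist I (rb g • I) - dist I (rc g • I) ≤ R
  linarith

/-- No group acts properly and cocompactly on `SL(2, ℝ)` by each two of three representations. -/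
theorem no_three (r : Fin 3 → G →* SL(2, ℝ))
    (hP : ∀ i j, i ≠ j → ∀ R : ℝ, {g : G | |dist I (r i g • I) - dist I (r j g • I)| ≤ R}.Finite)
    (c : ℝ) (hC : ∀ i j, i ≠ j → ∀ u : SL(2, ℝ), ∃ g : G, dist (u • r j g • I) (r i g • I) ≤ c) : False := by
  have hD : ∀ i j, i ≠ j → Dom (r i) (r j) ∨ Dom (r j) (r i) := fun i j hij =>
    dom_or (r i) (r j) (hP i j hij) c (hC i j hij)
  have hN : ∀ i j k, i ≠ j → Dom (r i) (r j) → Dom (r j) (r k) → False := fun i j k hij h1 h2 =>
    no_chain (r i) (r j) (r k) h1 h2 c (hC i j hij)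
  rcases hD 0 1 (by decide) with h01 | h01
  · rcases hD 1 2 (by decide) with h12 | h12
    · exact hN 0 1 2 (by decide) h01 h12
    · rcases hD 0 2 (by decide) with h02 | h02
      · exact hN 0 2 1 (by decide) h02 h12
      · exact hN 2 0 1 (by decide) h02 h01
  · rcases hD 1 2 (by decide) with h12 | h12
    · rcases hD 0 2 (by decide) with h02 | h02
      · exact hN 1 0 2 (by decide) h01 h02
      · exact hN 1 2 0 (by decide) h12 h02
    · exact hN 2 1 0 (by decide) h12 h01

end F31343.Quot
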